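import Mathlib
import Pool.Agent.H82.Hp.Main

/-!
# Definitions for the near-one theorem (`MP_ff17e6_an`)

All circle averages are over the unit circle. Sequences `ℕ → ℂ` are used with only the entries
`0, …, n` relevant.
-/

set_option autoImplicit false

open Metric Set Filter Topology Polynomial

namespace Pool.Agent.H82.NP

/-- average of a real function over the unit circle -/
noncomputable def av (F : ℂ → ℝ) : ℝ := Real.circleAverage F 0 1

/-- average of a complex function over the unit circle -/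
noncomputable def avc (F : ℂ → ℂ) : ℂ := Real.circleAverage F 0 1

/-- `|G|²` -/
noncomputable def sq (G : ℂ[X]) (z : ℂ) : ℝ := ‖G.eval z‖ ^ 2

/-- the squared norm of a polynomial of degree at most `n` -/
noncomputable def nrm (n : ℕ) (G : ℂ[X]) : ℝ := ∑ k ∈ Finset.range (n + 1), ‖G.coeff k‖ ^ 2

/-- entropy of a density on the circle -/
noncomputable def ent (T : ℂ → ℝ) : ℝ := av (fun z => T z * Real.log (T z))

/-- the constant `1 - log 2` -/
noncomputable def eps0 : ℝ := 1 - Real.log 2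

/-- the real trigonometric polynomial with coefficients `τ` (frequency `-k` has coefficient `τ k`,
frequency `k` has coefficient `conj (τ k)`; `τ 0` is meant to be real) -/
noncomputable def TP (n : ℕ) (τ : ℕ → ℂ) (z : ℂ) : ℝ :=
  (τ 0).re + 2 * ∑ k ∈ Finset.Icc 1 n, ((starRingEnd ℂ) (τ k) * z ^ k).re

/-- the pairing -/
noncomputable def L (n : ℕ) (c τ : ℕ → ℂ) : ℝ := (∑ k ∈ Finset.range (n + 1), c k * τ k).re

/-- nonnegative trigonometric polynomials with mean one -/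
def Adm (n : ℕ) (τ : ℕ → ℂ) : Prop := τ 0 = 1 ∧ ∀ z : ℂ, ‖z‖ = 1 → 0 ≤ TP n τ z

/-- the relaxed class: all Gibbs inequalities hold -/
def CC (n : ℕ) (s : ℝ) : Set (ℕ → ℂ) := {c | ∀ τ, Adm n τ → L n c τ ≤ s * ent (TP n τ)}

/-- the Taylor coefficients of `exp (∑ c_k z^k)` -/
noncomputable def ea (c : ℕ → ℂ) : ℕ → ℂ
  | 0 => Complex.exp (c 0)
  | (m + 1) => (∑ j : Fin (m + 1), ((j : ℂ) + 1) * c (j + 1) * ea c (m - j)) / (m + 1)

/-- the coefficient sequence of a polynomial times `z^{-k}`: `ac n G k` is the coefficient of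
frequency `-k` of `|G|²` -/
noncomputable def ac (n : ℕ) (G : ℂ[X]) (k : ℕ) : ℂ :=
  ∑ j ∈ Finset.range (n + 1), G.coeff j * (starRingEnd ℂ) (G.coeff (j + k))

/-- maximisers of `|a_n|` in the relaxed class, normalised -/
structure Max (n : ℕ) (s : ℝ) (c : ℕ → ℂ) : Prop where
  mem : c ∈ CC n s
  supp : ∀ k, n < k → c k = 0
  im0 : |(c 0).im| ≤ Real.pi
  real : ea c n = (‖ea c n‖ : ℂ)
  pos : 0 < ‖ea c n‖
  max : ∀ d ∈ CC n s, ‖ea d n‖ ≤ ‖ea c n‖

/-- the kernel polynomial of a sequence: `τ k = a_{n-k} / a_n` -/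
noncomputable def ker (n : ℕ) (c : ℕ → ℂ) (k : ℕ) : ℂ := if k ≤ n then ea c (n - k) / ea c n else 0

/-- `lam` are the Taylor coefficients of `2 log G` (real part normalised), in the form needed -/
structure LogData (G : ℂ[X]) (lam : ℕ → ℂ) : Prop where
  exp : ∀ m, G.coeff m = ea (fun k => lam k / 2) m
  mom : ∀ (n : ℕ) (τ : ℕ → ℂ), (τ 0).im = 0 →
    av (fun z => TP n τ z * Real.log (sq G z)) = L n lam τ

/-- the structure of a maximiser -/
structure KKT (n : ℕ) (s : ℝ) (c : ℕ → ℂ) (G : ℂ[X]) (lam : ℕ → ℂ) (m : ℕ)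
    (r : Fin m → ℝ) (ζ : Fin m → ℂ) : Prop where
  deg : G.natDegree ≤ n
  zf : ∀ z : ℂ, ‖z‖ < 1 → G.eval z ≠ 0
  ker_eq : ∀ k, k ≤ n → ac n G k = ker n c k
  log : LogData G lam
  rpos : ∀ i, 0 < r i
  circ : ∀ i, ‖ζ i‖ = 1
  root : ∀ i, G.eval (ζ i) = 0
  c0 : (c 0).re = s * (lam 0).re - ∑ i, r i
  ck : ∀ k, 1 ≤ k → k ≤ n → c k = s * lam k - 2 * ∑ i, (r i : ℂ) * (starRingEnd ℂ) (ζ i) ^ k

end Pool.Agent.H82.NP
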