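import Mathlib
import Pool.Agent.H82.NP.Defs

/-!
# Targets for the near-one theorem (`MP_ff17e6_an`)

Each target is a closed proposition. A module with dependencies takes them as hypotheses:
`theorem t_X (h1 : T_A) (h2 : T_B) : T_X`.
-/

set_option autoImplicit false

open Metric Set Filter Topology Polynomial

namespace Pool.Agent.H82.NP

open Pool.Agent.H82.Hp (co Np Fext)

/-! ### basic facts on the circle -/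

def T_PARS : Prop := ∀ (n : ℕ) (G : ℂ[X]), G.natDegree ≤ n → av (sq G) = nrm n G

def T_AC : Prop := ∀ (n : ℕ) (G : ℂ[X]), G.natDegree ≤ n →
  ∀ z : ℂ, ‖z‖ = 1 → sq G z = TP n (ac n G) z

def T_UNIQ : Prop := ∀ (n : ℕ) (τ τ' : ℕ → ℂ), (∀ z : ℂ, ‖z‖ = 1 → TP n τ z = TP n τ' z) →
  (τ 0).re = (τ' 0).re ∧ ∀ k, 1 ≤ k → k ≤ n → τ k = τ' k

def T_LAV : Prop := ∀ (n : ℕ) (c τ : ℕ → ℂ), (τ 0).im = 0 →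
  av (fun z => TP n τ z * (∑ k ∈ Finset.range (n + 1), c k * z ^ k).re) = L n c τ

def T_GIBBS : Prop := ∀ (T w : ℂ → ℝ), ContinuousOn T (sphere 0 1) → ContinuousOn w (sphere 0 1) →
  (∀ z : ℂ, ‖z‖ = 1 → 0 ≤ T z) → (∀ z : ℂ, ‖z‖ = 1 → 0 ≤ w z) →
  {z : ℂ | ‖z‖ = 1 ∧ w z = 0}.Finite →
  CircleIntegrable (fun z => T z * Real.log (w z)) 0 1 → av T = 1 → 0 < av w →
  av (fun z => T z * Real.log (w z)) ≤ ent T + Real.log (av w)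

def T_ENTC : Prop := ∀ (n : ℕ) (τ : ℕ → ℕ → ℂ) (σ : ℕ → ℂ),
  (∀ j, Tendsto (fun k => τ k j) atTop (𝓝 (σ j))) →
  Tendsto (fun k => ent (TP n (τ k))) atTop (𝓝 (ent (TP n σ)))

/-- bounds: a nonnegative trigonometric polynomial with mean one is at most `n + 1`, its
coefficients are at most one, and its entropy is between `0` and `log (n + 1)` -/
def T_ADM : Prop := ∀ (n : ℕ) (τ : ℕ → ℂ), Adm n τ →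
  (∀ z : ℂ, ‖z‖ = 1 → TP n τ z ≤ n + 1) ∧ (∀ k, 1 ≤ k → k ≤ n → ‖τ k‖ ≤ 1) ∧
    0 ≤ ent (TP n τ) ∧ ent (TP n τ) ≤ Real.log (n + 1)

/-! ### the entropy inequality -/

def T_BESSEL : Prop := ∀ R : ℝ, 1 < R → ∀ F : ℂ → ℂ, DifferentiableOn ℂ F (ball 0 R) →
  ∀ m : ℕ, ∑ j ∈ Finset.range m, ‖co F j‖ ^ 2 ≤ av (fun z => ‖F z‖ ^ 2)

def T_CONTR : Prop := ∀ R : ℝ, 1 < R → ∀ b φ : ℂ → ℂ, DifferentiableOn ℂ b (ball 0 R) →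
  DifferentiableOn ℂ φ (ball 0 R) → (∀ z : ℂ, ‖z‖ = 1 → ‖b z‖ ≤ 1) →
  ∀ w : ℕ → ℝ, Antitone w → (∀ j, 0 ≤ w j) → ∀ m : ℕ,
    ∑ j ∈ Finset.range m, w j * ‖co (fun z => b z * φ z) j‖ ^ 2
      ≤ ∑ j ∈ Finset.range m, w j * ‖co φ j‖ ^ 2

/-- coefficients `(j / n) g_j` -/
noncomputable def pA (n : ℕ) (G : ℂ[X]) : ℂ[X] := C ((n : ℂ)⁻¹) * (X * derivative G)

/-- coefficients `(1 - j / n) g_j` -/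
noncomputable def pB (n : ℕ) (G : ℂ[X]) : ℂ[X] := G - pA n G

noncomputable def vv (n : ℕ) (G : ℂ[X]) : ℝ :=
  ∑ j ∈ Finset.range (n + 1), ((j : ℝ) * (n - j) / n ^ 2) * ‖G.coeff j‖ ^ 2

noncomputable def ub (n : ℕ) (G : ℂ[X]) (k : ℕ) : ℂ :=
  avc (fun z => ((‖(pB n G).eval z‖ ^ 2 : ℝ) : ℂ) * ((pA n G).eval z / (pB n G).eval z) ^ k)

/-- all roots on the circle and simple -/
def Simple (G : ℂ[X]) : Prop := ∀ z, G.eval z = 0 → ‖z‖ = 1 ∧ (derivative G).eval z ≠ 0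

def T_SELF : Prop := ∀ (n : ℕ) (G : ℂ[X]), G.natDegree = n → G ≠ 0 →
  (∀ z, G.eval z = 0 → ‖z‖ = 1) →
  ∃ κ : ℂ, ‖κ‖ = 1 ∧ ∀ j, j ≤ n → G.coeff (n - j) = κ * (starRingEnd ℂ) (G.coeff j)

def T_AB : Prop := ∀ (n : ℕ) (G : ℂ[X]), 1 ≤ n → G.natDegree = n → Simple G →
  (∃ R : ℝ, 1 < R ∧ ∀ z ∈ ball (0 : ℂ) R, (pB n G).eval z ≠ 0) ∧
  ∀ z : ℂ, ‖z‖ = 1 → ‖(pA n G).eval z‖ = ‖(pB n G).eval z‖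

def T_UB : Prop := ∀ (n : ℕ) (G : ℂ[X]), 1 ≤ n → G.natDegree = n → Simple G → nrm n G = 1 →
  ub n G 0 = ((1 / 2 - vv n G : ℝ) : ℂ) ∧ ub n G 1 = (vv n G : ℂ) ∧
  (∀ k, 1 ≤ k → ‖ub n G k‖ ≤ vv n G) ∧ ‖ub n G 2‖ ≤ (1 - 1 / n) * vv n G

def T_SER : Prop := ∀ (D : ℂ → ℝ) (b : ℂ → ℂ), ContinuousOn D (sphere 0 1) →
  ContinuousOn b (sphere 0 1) → (∀ z : ℂ, ‖z‖ = 1 → 0 ≤ D z) → (∀ z : ℂ, ‖z‖ = 1 → ‖b z‖ = 1) →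
  ∀ u0 u1 θ : ℝ, avc (fun z => (D z : ℂ)) = u0 → avc (fun z => (D z : ℂ) * b z) = u1 →
  (∀ k : ℕ, 1 ≤ k → ‖avc (fun z => (D z : ℂ) * b z ^ k)‖ ≤ u1) →
  ‖avc (fun z => (D z : ℂ) * b z ^ 2)‖ ≤ θ * u1 →
  2 * u0 + 2 * u1 + 2 / 3 * (1 - θ) * u1
    ≤ av (fun z => D z * ‖1 + b z‖ ^ 2 * Real.log (‖1 + b z‖ ^ 2))

def T_EN1 : Prop := ∀ (n : ℕ) (G : ℂ[X]), 1 ≤ n → G.natDegree = n → Simple G → nrm n G = 1 →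
  eps0 + 2 / (3 * n) * vv n G ≤ ent (sq G)

def T_EN : Prop := ∀ (n : ℕ) (G : ℂ[X]), 1 ≤ n → G.natDegree = n →
  (∀ z, G.eval z = 0 → ‖z‖ = 1) → nrm n G = 1 → eps0 + 2 / (3 * n) * vv n G ≤ ent (sq G)

/-! ### coefficients of exponentials -/

def T_EA1 : Prop := ∀ f h : ℂ → ℂ, DifferentiableOn ℂ h (ball 0 1) →
  (∀ z ∈ ball (0 : ℂ) 1, f z = Complex.exp (h z)) → ∀ m, co f m = ea (fun k => co h k) m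

def T_EA2 : Prop := ∀ (c d : ℕ → ℂ) (m : ℕ),
  ea (fun k => c k + d k) m = ∑ j ∈ Finset.range (m + 1), ea c j * ea d (m - j)

def T_EA3 : Prop := ∀ m, Continuous (fun c : ℕ → ℂ => ea c m)

def T_EA4 : Prop := ∀ (c : ℕ → ℂ) (M : ℝ), 0 ≤ M → (∀ k, 1 ≤ k → ‖c k‖ ≤ M) →
  ∀ m, ‖ea c m‖ ≤ Real.exp ((c 0).re) * (1 + M) ^ m

def T_EA5 : Prop := ∀ (c : ℕ → ℂ) (κ : ℂ) (m : ℕ),
  ea (fun k => if k = 0 then c 0 + κ else c k) m = Complex.exp κ * ea c m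

def T_EA6 : Prop := ∀ (c d : ℕ → ℂ) (m : ℕ), (∀ k, k ≤ m → c k = d k) → ea c m = ea d m

/-- derivative in a direction -/
def T_EAD : Prop := ∀ (c d : ℕ → ℂ) (m : ℕ),
  HasDerivAt (fun t : ℝ => ea (fun k => c k + (t : ℂ) * d k) m)
    (∑ j ∈ Finset.range (m + 1), ea c (m - j) * d j) 0

/-! ### the relaxed class -/

def T_NPCC : Prop := ∀ (p : ℝ), 1 ≤ p → ∀ f ∈ Np p, ∀ h : ℂ → ℂ,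
  DifferentiableOn ℂ h (ball 0 1) → (∀ z ∈ ball (0 : ℂ) 1, f z = Complex.exp (h z)) →
  ∀ n, (fun k => co h k) ∈ CC n (1 / p)

def T_CCCL : Prop := ∀ (n : ℕ) (s : ℕ → ℝ) (S : ℝ) (c : ℕ → ℕ → ℂ) (d : ℕ → ℂ),
  (∀ k, c k ∈ CC n (s k)) → Tendsto s atTop (𝓝 S) →
  (∀ j, Tendsto (fun k => c k j) atTop (𝓝 (d j))) → d ∈ CC n S

def T_CCBD : Prop := ∀ (n : ℕ) (s : ℝ) (c : ℕ → ℂ), 0 < s → s ≤ 1 → c ∈ CC n s →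
  (c 0).re ≤ 0 ∧ ∀ k, 1 ≤ k → k ≤ n → ‖c k‖ ≤ 2 * (Real.log 2 - (c 0).re)

/-- the value at the candidate (for `s = 1` use `(1 + z ^ n) ^ 2 / 2`) -/
def T_CAND : Prop := ∀ (n : ℕ) (s : ℝ), 1 ≤ n → 0 < s → s ≤ 1 →
  ∃ d ∈ CC n s, Real.exp (-(1 - s) * eps0) ≤ ‖ea d n‖

def T_MAXEX : Prop := ∀ (n : ℕ) (s : ℝ), 1 ≤ n → 0 < s → s ≤ 1 → ∃ c, Max n s c

def T_MAXBD : Prop := ∀ (n : ℕ), 1 ≤ n → ∃ K : ℝ, ∀ (s : ℝ) (c : ℕ → ℂ), 0 < s → s ≤ 1 →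
  Max n s c → ∀ k, ‖c k‖ ≤ K

/-! ### the structure of maximisers -/

/-- first order optimality -/
def T_OPT : Prop := ∀ (n : ℕ) (s : ℝ) (c : ℕ → ℂ), Max n s c → ∀ d ∈ CC n s,
  L n d (ker n c) ≤ L n c (ker n c)

def T_K1 : Prop := ∀ (n : ℕ) (s : ℝ) (c : ℕ → ℂ), 1 ≤ n → 0 < s → Max n s c → Adm n (ker n c)

/-- Fejér-Riesz -/
def T_FR : Prop := ∀ (n : ℕ) (τ : ℕ → ℂ), Adm n τ → ∃ G : ℂ[X], G.natDegree ≤ n ∧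
  (∀ z : ℂ, ‖z‖ < 1 → G.eval z ≠ 0) ∧ ∀ z : ℂ, ‖z‖ = 1 → sq G z = TP n τ z

def T_LOG : Prop := ∀ G : ℂ[X], (∀ z : ℂ, ‖z‖ < 1 → G.eval z ≠ 0) → ∃ lam, LogData G lam

def T_K2 : Prop := ∀ (n : ℕ) (s : ℝ) (c : ℕ → ℂ), 1 ≤ n → 0 < s → Max n s c →
  L n c (ker n c) = s * ent (TP n (ker n c))

def T_K3 : Prop := ∀ (n : ℕ) (s : ℝ) (c : ℕ → ℂ), 1 ≤ n → 0 < s → Max n s c →
  ∀ τ, Adm n τ → L n c τ ≤ s * av (fun z => TP n τ z * Real.log (TP n (ker n c) z))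

def T_ATOM : Prop := ∀ (n : ℕ) (x : ℕ → ℂ), (∀ τ, Adm n τ → 0 ≤ L n x τ) →
  ∃ (m : ℕ) (r : Fin m → ℝ) (ζ : Fin m → ℂ), (∀ i, 0 < r i) ∧ (∀ i, ‖ζ i‖ = 1) ∧
    ∀ τ : ℕ → ℂ, (τ 0).im = 0 → L n x τ = ∑ i, r i * TP n τ (ζ i)

def T_KKT : Prop := ∀ (n : ℕ) (s : ℝ) (c : ℕ → ℂ), 1 ≤ n → 0 < s → s ≤ 1 → Max n s c →
  ∃ (G : ℂ[X]) (lam : ℕ → ℂ) (m : ℕ) (r : Fin m → ℝ) (ζ : Fin m → ℂ), KKT n s c G lam m r ζ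

def T_ENV : Prop := ∀ (n : ℕ) (s s' : ℝ) (c c' : ℕ → ℂ) (G : ℂ[X]) (lam : ℕ → ℂ) (m : ℕ)
  (r : Fin m → ℝ) (ζ : Fin m → ℂ), 1 ≤ n → 0 < s → s < s' → s' ≤ 1 → Max n s c →
  KKT n s c G lam m r ζ → Max n s' c' →
  ‖ea c n‖ * Real.exp (-s' * Real.log (av (fun z => sq G z ^ (s / s')))) ≤ ‖ea c' n‖

def T_QUAD : Prop := ∀ n : ℕ, ∃ K : ℝ, 0 ≤ K ∧ ∀ (G : ℂ[X]) (δ : ℝ), G.natDegree ≤ n →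
  nrm n G = 1 → 0 ≤ δ → δ ≤ 1 / 2 →
  av (fun z => sq G z ^ (1 - δ)) ≤ 1 - δ * ent (sq G) + K * δ ^ 2

def T_P1 : Prop := ∀ (n : ℕ) (c : ℕ → ℂ) (G : ℂ[X]) (lam : ℕ → ℂ) (m : ℕ)
  (r : Fin m → ℝ) (ζ : Fin m → ℂ), 1 ≤ n → Max n 1 c → KKT n 1 c G lam m r ζ →
  ‖ea c n‖ ≤ 1 ∧ (1 ≤ ‖ea c n‖ → G.natDegree = n ∧ ∀ z, G.eval z = 0 → ‖z‖ = 1)

def T_KEY : Prop := ∀ (n : ℕ) (s : ℝ) (c : ℕ → ℂ) (G : ℂ[X]) (lam : ℕ → ℂ) (m : ℕ)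
  (r : Fin m → ℝ) (ζ : Fin m → ℂ), 1 ≤ n → 0 < s → s < 1 → KKT n s c G lam m r ζ →
  ∀ α : ℂ, G.eval α = 0 → 1 < ‖α‖ → ∀ z : ℂ, ‖z‖ = 1 →
    s * (‖α‖ ^ 2 - 1) * ‖(G /ₘ (X - C α)).eval z‖ ^ 2
      ≤ ∑ i, 2 * r i * ‖(G /ₘ (X - C (ζ i))).eval z‖ ^ 2

/-- near a polynomial with simple roots on the circle all roots are on the circle -/
def T_LOC : Prop := ∀ (n : ℕ) (s : ℕ → ℝ) (c : ℕ → ℕ → ℂ) (G : ℕ → ℂ[X]) (H : ℂ[X])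
  (lam : ℕ → ℕ → ℂ) (m : ℕ → ℕ) (r : (k : ℕ) → Fin (m k) → ℝ) (ζ : (k : ℕ) → Fin (m k) → ℂ)
  (K : ℝ), 1 ≤ n → (∀ k, 1 / 2 ≤ s k) → (∀ k, s k < 1) →
  (∀ k, KKT n (s k) (c k) (G k) (lam k) (m k) (r k) (ζ k)) → (∀ k, ∑ i, r k i ≤ K) →
  (∀ j, Tendsto (fun k => (G k).coeff j) atTop (𝓝 (H.coeff j))) → H.natDegree = n → Simple H →
  ∀ᶠ k in atTop, (G k).natDegree = n ∧ ∀ z, (G k).eval z = 0 → ‖z‖ = 1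

def T_NEAR : Prop := ∀ n : ℕ, 1 ≤ n → ∃ s₀ : ℝ, 0 < s₀ ∧ s₀ < 1 ∧ ∀ s, s₀ < s → s < 1 →
  ∀ (c : ℕ → ℂ) (G : ℂ[X]) (lam : ℕ → ℂ) (m : ℕ) (r : Fin m → ℝ) (ζ : Fin m → ℂ), Max n s c →
  KKT n s c G lam m r ζ →
  eps0 ≤ ent (sq G) ∧ (ent (sq G) ≤ eps0 → ∀ j, 1 ≤ j → j < n → ker n c j = 0)

def T_TELE : Prop := ∀ n : ℕ, 1 ≤ n → ∃ s₀ : ℝ, 0 < s₀ ∧ s₀ < 1 ∧ ∀ s, s₀ < s → s < 1 →
  ∀ d ∈ CC n s, ‖ea d n‖ ≤ Real.exp (-(1 - s) * eps0) ∧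
    (‖ea d n‖ = Real.exp (-(1 - s) * eps0) → ∀ k, 1 ≤ k → k < n → ea d k = 0)

/-- the final theorem -/
def T_FIN : Prop := ∀ n : ℕ, 1 ≤ n → ∃ p₀ : ℝ, 1 < p₀ ∧ ∀ p q : ℝ, 1 < p → p < p₀ →
  1 / p + 1 / q = 1 →
  IsGreatest ((fun f => ‖co f n‖) '' Np p) ((2 / Real.exp 1) ^ (1 / q)) ∧
  ∀ f ∈ Np p, ‖co f n‖ = (2 / Real.exp 1) ^ (1 / q) ↔
    ∃ c γ : ℂ, ‖c‖ = 1 ∧ ‖γ‖ = 1 ∧ EqOn f (Fext p n c γ) (ball 0 1)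

end Pool.Agent.H82.NP
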