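import Mathlib
import Pool.Agent.H82.NP.Targets

set_option autoImplicit false

open Metric Set Filter Topology Polynomial

namespace Pool.Agent.H82.NP

open ComplexConjugate

/-! ### linearity of `TP` -/

lemma TP_add (n : ℕ) (σ τ : ℕ → ℂ) (z : ℂ) :
    TP n (fun k => σ k + τ k) z = TP n σ z + TP n τ z := by
  simp only [TP, Complex.add_re, map_add, add_mul, Finset.sum_add_distrib]
  ring

lemma TP_smul (n : ℕ) (a : ℝ) (τ : ℕ → ℂ) (z : ℂ) :
    TP n (fun k => (a : ℂ) * τ k) z = a * TP n τ z := by
  simp only [TP, map_mul, Complex.conj_ofReal, mul_assoc, Complex.re_ofReal_mul, ← Finset.mul_sum]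
  ring

lemma TP_sum {ι : Type*} (n : ℕ) (s : Finset ι) (τ : ι → ℕ → ℂ) (z : ℂ) :
    TP n (fun k => ∑ i ∈ s, τ i k) z = ∑ i ∈ s, TP n (τ i) z := by
  classical
  induction s using Finset.induction_on with
  | empty => simp [TP]
  | insert a s ha ih =>
    simp only [Finset.sum_insert ha]
    rw [TP_add, ih]

lemma TP_congr {n : ℕ} {σ τ : ℕ → ℂ} (h : ∀ k, k ≤ n → σ k = τ k) (z : ℂ) :
    TP n σ z = TP n τ z := by
  simp only [TP]
  rw [h 0 (Nat.zero_le _)]
  congr 2
  apply Finset.sum_congr rfl
  intro k hk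
  rw [Finset.mem_Icc] at hk
  rw [h k hk.2]

/-- cross correlation -/
noncomputable def xc (n : ℕ) (P Q : ℂ[X]) (k : ℕ) : ℂ :=
  ∑ j ∈ Finset.range (n + 1), P.coeff j * conj (Q.coeff (j + k))

lemma eval_eq {n : ℕ} {G : ℂ[X]} (hG : G.natDegree ≤ n) (z : ℂ) :
    G.eval z = ∑ j ∈ Finset.range (n + 1), G.coeff j * z ^ j :=
  eval_eq_sum_range' (by omega) z

/-- reorganisation of a double sum by differences -/
lemma double_sum (n : ℕ) (x : ℕ → ℕ → ℝ) :
    ∑ i ∈ Finset.range (n + 1), ∑ j ∈ Finset.range (n + 1), x i j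
      = ∑ j ∈ Finset.range (n + 1), x j j
        + ∑ k ∈ Finset.Icc 1 n, ∑ j ∈ Finset.range (n + 1),
            (if j + k ≤ n then x j (j + k) + x (j + k) j else 0) := by
  induction n with
  | zero => simp
  | succ n ih =>
    have e1 : ∑ i ∈ Finset.range (n + 2), ∑ j ∈ Finset.range (n + 2), x i j
        = ∑ i ∈ Finset.range (n + 1), ∑ j ∈ Finset.range (n + 1), x i j
          + ∑ i ∈ Finset.range (n + 1), (x i (n + 1) + x (n + 1) i) + x (n + 1) (n + 1) := by
      rw [Finset.sum_range_succ]
      have : ∀ i ∈ Finset.range (n + 1), ∑ j ∈ Finset.range (n + 2), x i j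
          = ∑ j ∈ Finset.range (n + 1), x i j + x i (n + 1) := fun i _ => Finset.sum_range_succ _ _
      rw [Finset.sum_congr rfl this, Finset.sum_range_succ (fun j => x (n + 1) j)]
      rw [Finset.sum_add_distrib, Finset.sum_add_distrib]
      ring
    rw [e1, ih, Finset.sum_range_succ (fun j => x j j) (n + 1)]
    have e2 : ∑ k ∈ Finset.Icc 1 (n + 1), ∑ j ∈ Finset.range (n + 2),
            (if j + k ≤ n + 1 then x j (j + k) + x (j + k) j else 0)
        = ∑ k ∈ Finset.Icc 1 n, ∑ j ∈ Finset.range (n + 1),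
            (if j + k ≤ n then x j (j + k) + x (j + k) j else 0)
          + ∑ i ∈ Finset.range (n + 1), (x i (n + 1) + x (n + 1) i) := by
      have e3 : ∀ k ∈ Finset.Icc 1 (n + 1), ∑ j ∈ Finset.range (n + 2),
            (if j + k ≤ n + 1 then x j (j + k) + x (j + k) j else 0)
          = ∑ j ∈ Finset.range (n + 1), (if j + k ≤ n then x j (j + k) + x (j + k) j else 0)
            + (x (n + 1 - k) (n + 1) + x (n + 1) (n + 1 - k)) := by
        intro k hk
        rw [Finset.mem_Icc] at hk
        rw [Finset.sum_range_succ, if_neg (by omega), add_zero]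
        have e4 : ∀ j ∈ Finset.range (n + 1),
            (if j + k ≤ n + 1 then x j (j + k) + x (j + k) j else 0)
            = (if j + k ≤ n then x j (j + k) + x (j + k) j else 0)
              + (if j = n + 1 - k then x j (j + k) + x (j + k) j else 0) := by
          intro j _
          by_cases h1 : j + k ≤ n
          · rw [if_pos (by omega), if_pos h1, if_neg (by omega), add_zero]
          · by_cases h2 : j = n + 1 - k
            · rw [if_pos (by omega), if_neg h1, if_pos h2, zero_add]
            · rw [if_neg (by omega), if_neg h1, if_neg h2, add_zero]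
        rw [Finset.sum_congr rfl e4, Finset.sum_add_distrib, Finset.sum_ite_eq',
          if_pos (by rw [Finset.mem_range]; omega)]
        have : n + 1 - k + k = n + 1 := by omega
        rw [this]
      rw [Finset.sum_congr rfl e3, Finset.sum_add_distrib]
      congr 1
      · rw [Finset.sum_Icc_succ_top (by omega)]
        have : ∑ j ∈ Finset.range (n + 1),
            (if j + (n + 1) ≤ n then x j (j + (n + 1)) + x (j + (n + 1)) j else 0) = 0 := by
          apply Finset.sum_eq_zero
          intro j _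
          rw [if_neg (by omega)]
        rw [this, add_zero]
      · rw [Finset.range_eq_Ico, ← Finset.sum_Ico_consecutive _ (Nat.zero_le 0) (Nat.zero_le _)]
        simp only [Finset.Ico_self, Finset.sum_empty, zero_add]
        have : Finset.Icc 1 (n + 1) = Finset.Ico 1 (n + 2) := by
          ext a; simp only [Finset.mem_Icc, Finset.mem_Ico]; omega
        rw [this, Finset.sum_Ico_eq_sum_range, ← Finset.range_eq_Ico,
          show n + 2 - 1 = n + 1 by omega,
          ← Finset.sum_range_reflect (fun i => x i (n + 1) + x (n + 1) i)]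
        apply Finset.sum_congr rfl
        intro k hk
        have h3 : n + 1 - 1 - k = n + 1 - (1 + k) := by omega
        rw [h3]
    rw [e2]
    ring

lemma conj_pow_unit {z : ℂ} (hz : ‖z‖ = 1) (j k : ℕ) :
    z ^ j * conj z ^ (j + k) = conj z ^ k := by
  have h1 : z * conj z = 1 := by rw [Complex.mul_conj, Complex.normSq_eq_norm_sq, hz]; simp
  rw [pow_add, ← mul_assoc, ← mul_pow, h1, one_pow, one_mul]

/-- polarised form of `T_AC` -/
lemma two_re_mul {n : ℕ} {P Q : ℂ[X]} (hP : P.natDegree ≤ n) (hQ : Q.natDegree ≤ n) {z : ℂ}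
    (hz : ‖z‖ = 1) :
    2 * (P.eval z * conj (Q.eval z)).re = TP n (fun k => xc n P Q k + xc n Q P k) z := by
  set x : ℕ → ℕ → ℝ := fun i j => (P.coeff i * z ^ i * conj (Q.coeff j * z ^ j)).re with hx
  have e1 : (P.eval z * conj (Q.eval z)).re
      = ∑ i ∈ Finset.range (n + 1), ∑ j ∈ Finset.range (n + 1), x i j := by
    rw [eval_eq hP, eval_eq hQ, map_sum, Finset.sum_mul_sum, Complex.re_sum]
    apply Finset.sum_congr rfl
    intro i _
    rw [Complex.re_sum]
  have hPz : ∀ j, n < j → P.coeff j = 0 := fun j hj =>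
    coeff_eq_zero_of_natDegree_lt (lt_of_le_of_lt hP hj)
  have hQz : ∀ j, n < j → Q.coeff j = 0 := fun j hj =>
    coeff_eq_zero_of_natDegree_lt (lt_of_le_of_lt hQ hj)
  have e2 : ∀ j k, x j (j + k) = (P.coeff j * conj (Q.coeff (j + k)) * conj z ^ k).re := by
    intro j k
    simp only [hx]
    rw [map_mul, map_pow, ← conj_pow_unit hz j k]
    congr 1
    ring
  have e3 : ∀ j k, x (j + k) j = (Q.coeff j * conj (P.coeff (j + k)) * conj z ^ k).re := by
    intro j k
    simp only [hx]
    rw [map_mul, map_pow, ← conj_pow_unit hz j k, ← Complex.conj_re]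
    congr 1
    simp only [map_mul, map_pow, Complex.conj_conj]
    ring
  have e4 : ∀ k ∈ Finset.Icc 1 n, ∑ j ∈ Finset.range (n + 1),
      (if j + k ≤ n then x j (j + k) + x (j + k) j else 0)
      = (conj (xc n P Q k + xc n Q P k) * z ^ k).re := by
    intro k _
    rw [← Complex.conj_re (conj (xc n P Q k + xc n Q P k) * z ^ k), map_mul, Complex.conj_conj,
      map_pow, xc, xc, ← Finset.sum_add_distrib, Finset.sum_mul, Complex.re_sum]
    apply Finset.sum_congr rfl
    intro j _
    by_cases h : j + k ≤ n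
    · rw [if_pos h, e2, e3, add_mul, Complex.add_re]
    · rw [if_neg h, hPz (j + k) (by omega), hQz (j + k) (by omega)]
      simp
  rw [e1, double_sum, Finset.sum_congr rfl e4, TP, mul_add]
  congr 1
  have e5 : ∀ j ∈ Finset.range (n + 1), x j j = (P.coeff j * conj (Q.coeff (j + 0))).re := by
    intro j _
    have := e2 j 0
    simpa using this
  have e6 : ∀ j ∈ Finset.range (n + 1), x j j = (Q.coeff j * conj (P.coeff (j + 0))).re := by
    intro j _
    have := e3 j 0
    simpa using this
  rw [xc, xc, Complex.add_re, Complex.re_sum, Complex.re_sum, two_mul]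
  congr 1
  · exact Finset.sum_congr rfl e5
  · exact Finset.sum_congr rfl e6

lemma sq_eq {n : ℕ} {G : ℂ[X]} (hG : G.natDegree ≤ n) {z : ℂ} (hz : ‖z‖ = 1) :
    sq G z = TP n (ac n G) z := by
  have h := two_re_mul hG hG hz
  have h2 : (G.eval z * conj (G.eval z)).re = sq G z := by
    rw [Complex.mul_conj, Complex.normSq_eq_norm_sq, Complex.ofReal_re, sq]
  have h3 : TP n (fun k => xc n G G k + xc n G G k) z = 2 * TP n (ac n G) z := by
    have h4 := TP_add n (xc n G G) (xc n G G) z
    rw [h4]
    have h5 : TP n (xc n G G) z = TP n (ac n G) z := rfl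
    rw [h5]
    ring
  rw [h2, h3] at h
  linarith

theorem t_AC : T_AC := fun _ _ hG _ hz => sq_eq hG hz

end Pool.Agent.H82.NP
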