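import Mathlib
import Pool.Agent.H82.NP.Trig

/-!
Module KEY.
-/

set_option autoImplicit false

open Metric Set Filter Topology Polynomial

namespace Pool.Agent.H82.NP

open ComplexConjugate

/-! ### the recursion of `ea` -/

lemma ea_zero (c : ℕ → ℂ) : ea c 0 = Complex.exp (c 0) := by rw [ea]

lemma ea_succ (c : ℕ → ℂ) (m : ℕ) :
    ((m : ℂ) + 1) * ea c (m + 1)
      = ∑ j ∈ Finset.range (m + 1), ((j : ℂ) + 1) * c (j + 1) * ea c (m - j) := by
  rw [ea, Finset.sum_range]
  have h : (m : ℂ) + 1 ≠ 0 := by exact_mod_cast Nat.succ_ne_zero m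
  field_simp

/-- the recursion in the form `m a_m = ∑_{j ≤ m} j c_j a_{m - j}` -/
lemma ea_rec (c : ℕ → ℂ) (m : ℕ) :
    (m : ℂ) * ea c m = ∑ j ∈ Finset.range (m + 1), (j : ℂ) * c j * ea c (m - j) := by
  cases m with
  | zero => simp
  | succ m =>
    rw [Finset.sum_range_succ']
    have h := ea_succ c m
    push_cast
    rw [h]
    simp only [zero_mul, add_zero]

section
variable {n : ℕ} {s : ℝ} {c : ℕ → ℂ} {G : ℂ[X]} {lam : ℕ → ℂ} {m : ℕ} {r : Fin m → ℝ}
  {ζ : Fin m → ℂ}

lemma ac_eq_zero {n : ℕ} {G : ℂ[X]} (hG : G.natDegree ≤ n) {k : ℕ} (hk : n < k) :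
    ac n G k = 0 := by
  unfold ac
  apply Finset.sum_eq_zero
  intro j _
  rw [coeff_eq_zero_of_natDegree_lt (by omega : G.natDegree < j + k), map_zero, mul_zero]

lemma ac_eq_zero_of_lt {n d : ℕ} {G : ℂ[X]} (hG : G.natDegree ≤ d) {k : ℕ} (hk : d < k) :
    ac n G k = 0 := by
  unfold ac
  apply Finset.sum_eq_zero
  intro j _
  rw [coeff_eq_zero_of_natDegree_lt (by omega : G.natDegree < j + k), map_zero, mul_zero]

/-- `(n - k) t_k = ∑_j j c_j t_{k + j}` -/
lemma rec_t (h : KKT n s c G lam m r ζ) (k : ℕ) (hk : k ≤ n) :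
    ((n : ℂ) - k) * ac n G k = ∑ j ∈ Finset.range (n + 1), (j : ℂ) * c j * ac n G (k + j) := by
  have h1 : ∑ j ∈ Finset.range (n + 1), (j : ℂ) * c j * ac n G (k + j)
      = ∑ j ∈ Finset.range (n - k + 1), (j : ℂ) * c j * ac n G (k + j) := by
    symm
    apply Finset.sum_subset
    · intro j hj
      rw [Finset.mem_range] at *
      omega
    · intro j hj hj2
      rw [Finset.mem_range] at *
      rw [ac_eq_zero h.deg (by omega), mul_zero]
  rw [h1, h.ker_eq k hk, ker, if_pos hk]
  have h2 : ∀ j ∈ Finset.range (n - k + 1), (j : ℂ) * c j * ac n G (k + j)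
      = ((j : ℂ) * c j * ea c (n - k - j)) / ea c n := by
    intro j hj
    rw [Finset.mem_range] at hj
    rw [h.ker_eq (k + j) (by omega), ker, if_pos (by omega), show n - (k + j) = n - k - j by omega]
    ring
  rw [Finset.sum_congr rfl h2, ← Finset.sum_div, ← ea_rec, Nat.cast_sub hk]
  ring

/-- coefficients of `z G'` -/
lemma rec_g (h : LogData G lam) (k : ℕ) :
    (k : ℂ) * G.coeff k = (1 / 2) * ∑ j ∈ Finset.range (k + 1), (j : ℂ) * lam j * G.coeff (k - j) := by
  rw [h.exp k, ea_rec, Finset.mul_sum]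
  apply Finset.sum_congr rfl
  intro j _
  rw [h.exp (k - j)]
  ring

/-- `d_k = ∑_j j g_j conj g_{j+k} = (1/2) ∑_j j lam_j t_{k + j}` -/
lemma rec_d (hG : G.natDegree ≤ n) (h : LogData G lam) (k : ℕ) :
    ∑ i ∈ Finset.range (n + 1), (i : ℂ) * G.coeff i * conj (G.coeff (i + k))
      = (1 / 2) * ∑ j ∈ Finset.range (n + 1), (j : ℂ) * lam j * ac n G (k + j) := by
  have e1 : ∀ i ∈ Finset.range (n + 1), (i : ℂ) * G.coeff i * conj (G.coeff (i + k))
      = (1 / 2) * ∑ j ∈ Finset.range (n + 1),
          (if j ≤ i then (j : ℂ) * lam j * (G.coeff (i - j) * conj (G.coeff (i + k))) else 0) := by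
    intro i hi
    rw [Finset.mem_range] at hi
    rw [rec_g h i, mul_assoc, Finset.sum_mul]
    congr 1
    rw [← Finset.sum_filter]
    apply Finset.sum_congr
    · ext j
      simp only [Finset.mem_range, Finset.mem_filter]
      omega
    · intro j _
      ring
  rw [Finset.sum_congr rfl e1, ← Finset.mul_sum, Finset.sum_comm]
  congr 1
  apply Finset.sum_congr rfl
  intro j hj
  rw [Finset.mem_range] at hj
  rw [← Finset.sum_filter, ac, Finset.mul_sum]
  -- i ↦ i - j
  have e2 : ∑ x ∈ Finset.range (n + 1), (j : ℂ) * lam j * (G.coeff x * conj (G.coeff (x + (k + j))))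
      = ∑ x ∈ Finset.range (n + 1 - j), (j : ℂ) * lam j * (G.coeff x * conj (G.coeff (x + (k + j)))) := by
    symm
    apply Finset.sum_subset
    · intro x hx
      rw [Finset.mem_range] at *
      omega
    · intro x hx hx2
      rw [Finset.mem_range] at *
      rw [coeff_eq_zero_of_natDegree_lt (by omega : G.natDegree < x + (k + j))]
      simp
  rw [e2]
  apply Finset.sum_bij' (fun i _ => i - j) (fun i _ => i + j)
  · intro i hi
    simp only [Finset.mem_filter, Finset.mem_range] at *
    omega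
  · intro i hi
    simp only [Finset.mem_filter, Finset.mem_range] at *
    omega
  · intro i hi
    simp only [Finset.mem_filter, Finset.mem_range] at *
    omega
  · intro i hi
    simp only [Finset.mem_filter, Finset.mem_range] at *
    omega
  · intro i hi
    simp only [Finset.mem_filter, Finset.mem_range] at *
    rw [show i - j + (k + j) = i + k by omega]

end

/-! ### dividing by a root -/

/-- `D G = z G'` -/
noncomputable def DD (G : ℂ[X]) : ℂ[X] := X * derivative G

lemma coeff_DD (G : ℂ[X]) (k : ℕ) : (DD G).coeff k = (k : ℂ) * G.coeff k := by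
  unfold DD
  cases k with
  | zero => simp
  | succ k =>
    rw [coeff_X_mul, coeff_derivative]
    push_cast
    ring

lemma natDegree_DD {n : ℕ} {G : ℂ[X]} (hG : G.natDegree ≤ n) : (DD G).natDegree ≤ n := by
  rw [natDegree_le_iff_coeff_eq_zero]
  intro N hN
  rw [coeff_DD, coeff_eq_zero_of_natDegree_lt (lt_of_le_of_lt hG hN), mul_zero]

lemma two_re_DD {n : ℕ} {G : ℂ[X]} (hG : G.natDegree ≤ n) {z : ℂ} (hz : ‖z‖ = 1) :
    2 * ((DD G).eval z * conj (G.eval z)).re
      = TP n (fun k => 2 * (∑ i ∈ Finset.range (n + 1), (i : ℂ) * G.coeff i * conj (G.coeff (i + k)))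
          + k * ac n G k) z := by
  rw [two_re_mul (natDegree_DD hG) hG hz]
  congr 1
  funext k
  have h1 : xc n (DD G) G k
      = ∑ i ∈ Finset.range (n + 1), (i : ℂ) * G.coeff i * conj (G.coeff (i + k)) := by
    unfold xc
    apply Finset.sum_congr rfl
    intro i _
    rw [coeff_DD]
  have h2 : xc n G (DD G) k
      = ∑ i ∈ Finset.range (n + 1), (i : ℂ) * G.coeff i * conj (G.coeff (i + k))
        + k * ac n G k := by
    unfold xc ac
    rw [Finset.mul_sum, ← Finset.sum_add_distrib]
    apply Finset.sum_congr rfl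
    intro i _
    rw [coeff_DD, map_mul]
    have : conj (((i + k : ℕ) : ℂ)) = (i : ℂ) + k := by
      push_cast
      simp
    rw [this]
    ring
  rw [h1, h2]
  ring

lemma natDegree_div {n : ℕ} {G : ℂ[X]} (hG : G.natDegree ≤ n) (ζ : ℂ) :
    (G /ₘ (X - C ζ)).natDegree ≤ n - 1 := by
  rw [natDegree_divByMonic _ (monic_X_sub_C ζ), natDegree_X_sub_C]
  omega

lemma tele_sum (v : ℕ → ℂ) (N : ℕ) :
    ∑ j ∈ Finset.range (N + 1), (j : ℂ) * (2 * v j - v (j + 1) - v (j - 1))
      = - v 0 + (N + 1) * v N - N * v (N + 1) := by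
  induction N with
  | zero => simp
  | succ N ih =>
    rw [Finset.sum_range_succ, ih]
    simp only [Nat.add_sub_cancel]
    push_cast
    ring

/-- `∑_j j conj ζ^j t_{k+j} = - u_k` for a root `ζ` on the circle -/
lemma rec_root {n : ℕ} (hn : 1 ≤ n) {G : ℂ[X]} (hG : G.natDegree ≤ n) {ζ : ℂ} (hζ : ‖ζ‖ = 1)
    (hr : G.eval ζ = 0) (k : ℕ) :
    ∑ j ∈ Finset.range (n + 1), (j : ℂ) * conj ζ ^ j * ac n G (k + j)
      = - ac n (G /ₘ (X - C ζ)) k := by
  set H := G /ₘ (X - C ζ) with hH
  have hG2 : G = (X - C ζ) * H := (mul_divByMonic_eq_iff_isRoot.2 hr).symm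
  have hζc : ζ * conj ζ = 1 := by rw [Complex.mul_conj, Complex.normSq_eq_norm_sq, hζ]; simp
  have hHd : H.natDegree ≤ n - 1 := natDegree_div hG ζ
  have c0 : G.coeff 0 = -ζ * H.coeff 0 := by
    rw [hG2, sub_mul, coeff_sub, coeff_C_mul]
    simp
  have cs : ∀ j, G.coeff (j + 1) = H.coeff j - ζ * H.coeff (j + 1) := by
    intro j
    rw [hG2, sub_mul, coeff_sub, coeff_C_mul, coeff_X_mul]
  have hHn : ∀ j, n ≤ j → H.coeff j = 0 := by
    intro j hj
    exact coeff_eq_zero_of_natDegree_lt (by omega)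
  -- the three term relation
  have key : ∀ q, ac n G (q + 1) = 2 * ac n H (q + 1) - conj ζ * ac n H (q + 2) - ζ * ac n H q := by
    intro q
    have s1 : ac n H (q + 1) = ∑ i ∈ Finset.range n, H.coeff i * conj (H.coeff (i + q + 1)) := by
      unfold ac
      rw [Finset.sum_range_succ, hHn n le_rfl, zero_mul, add_zero]
      rfl
    have s2 : ac n H (q + 2) = ∑ i ∈ Finset.range n, H.coeff i * conj (H.coeff (i + q + 2)) := by
      unfold ac
      rw [Finset.sum_range_succ, hHn n le_rfl, zero_mul, add_zero]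
      rfl
    have s3 : ac n H q = ∑ i ∈ Finset.range n, H.coeff (i + 1) * conj (H.coeff (i + q + 1))
        + H.coeff 0 * conj (H.coeff q) := by
      unfold ac
      rw [Finset.sum_range_succ']
      simp only [zero_add]
      congr 1
      apply Finset.sum_congr rfl
      intro i _
      rw [show i + 1 + q = i + q + 1 by ring]
    have s4 : ac n H (q + 1) = ∑ i ∈ Finset.range n, H.coeff (i + 1) * conj (H.coeff (i + q + 2))
        + H.coeff 0 * conj (H.coeff (q + 1)) := by
      unfold ac
      rw [Finset.sum_range_succ']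
      simp only [zero_add]
      congr 1
      apply Finset.sum_congr rfl
      intro i _
      rw [show i + 1 + (q + 1) = i + q + 2 by ring]
    have s5 : ac n G (q + 1) = ∑ i ∈ Finset.range n, (H.coeff i - ζ * H.coeff (i + 1))
          * conj (H.coeff (i + q + 1) - ζ * H.coeff (i + q + 2))
        + (-ζ * H.coeff 0) * conj (H.coeff q - ζ * H.coeff (q + 1)) := by
      unfold ac
      rw [Finset.sum_range_succ', c0]
      simp only [zero_add]
      rw [cs q]
      congr 1
      apply Finset.sum_congr rfl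
      intro i _
      rw [cs i, show i + 1 + (q + 1) = (i + q + 1) + 1 by ring, cs (i + q + 1)]
    have s6 : ∑ i ∈ Finset.range n, (H.coeff i - ζ * H.coeff (i + 1))
          * conj (H.coeff (i + q + 1) - ζ * H.coeff (i + q + 2))
        = ∑ i ∈ Finset.range n, H.coeff i * conj (H.coeff (i + q + 1))
          - conj ζ * ∑ i ∈ Finset.range n, H.coeff i * conj (H.coeff (i + q + 2))
          - ζ * ∑ i ∈ Finset.range n, H.coeff (i + 1) * conj (H.coeff (i + q + 1))
          + ∑ i ∈ Finset.range n, H.coeff (i + 1) * conj (H.coeff (i + q + 2)) := by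
      rw [Finset.mul_sum, Finset.mul_sum, ← Finset.sum_sub_distrib, ← Finset.sum_sub_distrib,
        ← Finset.sum_add_distrib]
      apply Finset.sum_congr rfl
      intro i _
      simp only [map_sub, map_mul]
      linear_combination (H.coeff (i + 1) * conj (H.coeff (i + q + 2))) * hζc
    rw [s5, s6]
    simp only [map_sub, map_mul]
    linear_combination (-1 : ℂ) * s1 + conj ζ * s2 + ζ * s3 - s4
      + (H.coeff 0 * conj (H.coeff (q + 1))) * hζc
  have e1 : ∀ j ∈ Finset.range (n + 1), (j : ℂ) * conj ζ ^ j * ac n G (k + j)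
      = (j : ℂ) * (2 * (conj ζ ^ j * ac n H (k + j)) - (conj ζ ^ (j + 1) * ac n H (k + (j + 1)))
          - (conj ζ ^ (j - 1) * ac n H (k + (j - 1)))) := by
    intro j _
    cases j with
    | zero => simp
    | succ j =>
      rw [show k + (j + 1) = (k + j) + 1 by ring, key (k + j)]
      simp only [Nat.add_sub_cancel]
      rw [show k + (j + 1 + 1) = k + j + 2 by ring]
      linear_combination (-(((j + 1 : ℕ) : ℂ) * conj ζ ^ j * ac n H (k + j))) * hζc
  rw [Finset.sum_congr rfl e1,
    tele_sum (fun j => conj ζ ^ j * ac n H (k + j)) n]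
  have z1 : ac n H (k + n) = 0 := ac_eq_zero_of_lt hHd (by omega)
  have z2 : ac n H (k + (n + 1)) = 0 := ac_eq_zero_of_lt hHd (by omega)
  simp only [z1, z2]
  simp

/-! ### truncations -/

/-- the first `l + 1` coefficients -/
noncomputable def low (G : ℂ[X]) (l : ℕ) : ℂ[X] :=
  ∑ j ∈ Finset.range (l + 1), C (G.coeff j) * X ^ j

lemma coeff_low (G : ℂ[X]) (l i : ℕ) :
    (low G l).coeff i = if i ≤ l then G.coeff i else 0 := by
  unfold low
  rw [finsetSum_coeff]
  simp only [coeff_C_mul_X_pow]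
  rw [Finset.sum_ite_eq]
  simp only [Finset.mem_range, Nat.lt_succ_iff]

lemma natDegree_low {n : ℕ} {G : ℂ[X]} (hG : G.natDegree ≤ n) (l : ℕ) :
    (low G l).natDegree ≤ n := by
  rw [natDegree_le_iff_coeff_eq_zero]
  intro N hN
  rw [coeff_low, coeff_eq_zero_of_natDegree_lt (lt_of_le_of_lt hG hN)]
  simp

lemma TP_nat_le {n : ℕ} {G : ℂ[X]} (hG : G.natDegree ≤ n) {z : ℂ} (hz : ‖z‖ = 1) :
    TP n (fun k => (k : ℂ) * ac n G k) z ≤ n * sq G z := by
  have h1 : ∑ l ∈ Finset.range n, (sq (low G l) z + sq (G - low G l) z)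
      = TP n (fun k => ∑ l ∈ Finset.range n, (ac n (low G l) k + ac n (G - low G l) k)) z := by
    rw [TP_sum]
    apply Finset.sum_congr rfl
    intro l _
    rw [TP_add, sq_eq (natDegree_low hG l) hz,
      sq_eq ((natDegree_sub_le _ _).trans (max_le hG (natDegree_low hG l))) hz]
  have h2 : ∀ k, k ≤ n → ∑ l ∈ Finset.range n, (ac n (low G l) k + ac n (G - low G l) k)
      = (n : ℂ) * ac n G k + ((-1 : ℝ) : ℂ) * ((k : ℂ) * ac n G k) := by
    intro k hk
    unfold ac
    have h3 : ∀ l ∈ Finset.range n,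
        (∑ j ∈ Finset.range (n + 1), (low G l).coeff j * conj ((low G l).coeff (j + k))
          + ∑ j ∈ Finset.range (n + 1), (G - low G l).coeff j * conj ((G - low G l).coeff (j + k)))
        = ∑ j ∈ Finset.range (n + 1), (((if j + k ≤ l then 1 else 0) + (if l < j then 1 else 0) : ℕ) : ℂ)
            * (G.coeff j * conj (G.coeff (j + k))) := by
      intro l _
      rw [← Finset.sum_add_distrib]
      apply Finset.sum_congr rfl
      intro j _
      simp only [coeff_sub, coeff_low]
      by_cases h1 : j + k ≤ l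
      · rw [if_pos h1, if_pos (by omega : j ≤ l), if_pos h1, if_neg (by omega : ¬ l < j)]
        simp
      · by_cases h2 : l < j
        · rw [if_neg h1, if_neg (by omega : ¬ j ≤ l), if_neg h1, if_pos h2]
          simp
        · rw [if_neg h1, if_pos (by omega : j ≤ l), if_neg h1, if_neg h2]
          simp
    rw [Finset.sum_congr rfl h3, Finset.sum_comm]
    rw [show (n : ℂ) * ∑ j ∈ Finset.range (n + 1), G.coeff j * conj (G.coeff (j + k))
        + ((-1 : ℝ) : ℂ) * ((k : ℂ) * ∑ j ∈ Finset.range (n + 1), G.coeff j * conj (G.coeff (j + k)))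
        = ((n : ℂ) - k) * ∑ j ∈ Finset.range (n + 1), G.coeff j * conj (G.coeff (j + k)) by
      push_cast
      ring, Finset.mul_sum]
    apply Finset.sum_congr rfl
    intro j hj
    rw [← Finset.sum_mul]
    by_cases hjk : j + k ≤ n
    · congr 1
      rw [← Nat.cast_sum, ← Nat.cast_sub hk]
      congr 1
      rw [Finset.sum_add_distrib, ← Finset.card_filter, ← Finset.card_filter]
      have e1 : Finset.filter (fun l => j + k ≤ l) (Finset.range n) = Finset.Ico (j + k) n := by
        ext l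
        simp only [Finset.mem_filter, Finset.mem_range, Finset.mem_Ico]
        omega
      have e2 : Finset.filter (fun l => l < j) (Finset.range n) = Finset.range j := by
        ext l
        simp only [Finset.mem_filter, Finset.mem_range]
        omega
      rw [e1, e2, Nat.card_Ico, Finset.card_range]
      omega
    · rw [coeff_eq_zero_of_natDegree_lt (by omega : G.natDegree < j + k)]
      simp
  rw [TP_congr h2, TP_add, TP_smul] at h1
  have h4 : TP n (fun k => (n : ℂ) * ac n G k) z = n * sq G z := by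
    have := TP_smul n (n : ℝ) (ac n G) z
    push_cast at this
    rw [this, sq_eq hG hz]
  rw [h4] at h1
  have h5 : 0 ≤ ∑ l ∈ Finset.range n, (sq (low G l) z + sq (G - low G l) z) :=
    Finset.sum_nonneg fun l _ => add_nonneg (sq_nonneg _) (sq_nonneg _)
  linarith

/-! ### the logarithmic derivative -/

lemma DD_mul_X_sub (α : ℂ) (H : ℂ[X]) (z : ℂ) :
    (DD ((X - C α) * H)).eval z = z * H.eval z + (z - α) * (DD H).eval z := by
  unfold DD
  rw [derivative_mul]
  simp
  ring

lemma step_id (n : ℝ) (α : ℂ) (H : ℂ[X]) {z : ℂ} (hz : ‖z‖ = 1) :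
    n * sq ((X - C α) * H) z
        - 2 * ((DD ((X - C α) * H)).eval z * conj (((X - C α) * H).eval z)).re
      = ‖z - α‖ ^ 2 * ((n - 1) * sq H z - 2 * ((DD H).eval z * conj (H.eval z)).re)
        + (‖α‖ ^ 2 - 1) * sq H z := by
  rw [DD_mul_X_sub]
  have e0 : ((X - C α) * H).eval z = (z - α) * H.eval z := by simp
  unfold sq
  rw [e0]
  set w := H.eval z
  set d := (DD H).eval z
  have hz2 : z.re ^ 2 + z.im ^ 2 = 1 := by
    have := Complex.sq_norm z
    rw [hz, Complex.normSq_apply] at this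
    nlinarith
  rw [← Complex.normSq_eq_norm_sq, ← Complex.normSq_eq_norm_sq, ← Complex.normSq_eq_norm_sq,
    ← Complex.normSq_eq_norm_sq]
  simp only [Complex.normSq_apply, Complex.mul_re, Complex.mul_im, Complex.sub_re, Complex.sub_im,
    Complex.add_re, Complex.add_im, Complex.conj_re, Complex.conj_im]
  linear_combination (-(w.re ^ 2 + w.im ^ 2)) * hz2

lemma nonneg_aux (z : ℂ) (hz : ‖z‖ = 1) (n : ℕ) : ∀ G : ℂ[X], G.natDegree ≤ n →
    (∀ β, G.eval β = 0 → 1 ≤ ‖β‖) →
    0 ≤ (n : ℝ) * sq G z - 2 * ((DD G).eval z * conj (G.eval z)).re := by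
  induction n with
  | zero =>
    intro G hG _
    have : DD G = 0 := by
      unfold DD
      rw [eq_C_of_natDegree_le_zero hG]
      simp
    rw [this]
    simp
  | succ n ih =>
    intro G hG hr
    by_cases h : ∃ α, G.eval α = 0
    · obtain ⟨α, hα⟩ := h
      set H := G /ₘ (X - C α) with hH
      have hG2 : G = (X - C α) * H := (mul_divByMonic_eq_iff_isRoot.2 hα).symm
      have h1 := step_id (n + 1) α H hz
      rw [← hG2] at h1
      push_cast
      rw [h1]
      have h2 := ih H (by have := natDegree_div hG α; simpa using this) (by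
        intro β hβ
        apply hr
        rw [hG2]
        simp [hβ])
      have h3 : 1 ≤ ‖α‖ := hr α hα
      have h4 : 0 ≤ sq H z := sq_nonneg _
      have h5 : (0 : ℝ) ≤ ‖z - α‖ ^ 2 := sq_nonneg _
      have h6 : 0 ≤ ‖α‖ ^ 2 - 1 := by nlinarith
      have h7 : (n : ℝ) + 1 - 1 = n := by ring
      rw [h7]
      exact add_nonneg (mul_nonneg h5 h2) (mul_nonneg h6 h4)
    · push Not at h
      have hd : G.degree ≤ 0 := by
        by_contra hc
        push Not at hc
        obtain ⟨x, hx⟩ := IsAlgClosed.exists_root G (ne_of_gt hc)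
        exact h x hx
      have : DD G = 0 := by
        unfold DD
        rw [eq_C_of_degree_le_zero hd]
        simp
      rw [this]
      simp only [eval_zero, zero_mul, Complex.zero_re, mul_zero, sub_zero]
      exact mul_nonneg (by positivity) (sq_nonneg _)

lemma root_bound {n : ℕ} (hn : 1 ≤ n) {G : ℂ[X]} (hG : G.natDegree ≤ n)
    (hr : ∀ β, G.eval β = 0 → 1 ≤ ‖β‖) {α : ℂ} (hα : G.eval α = 0) {z : ℂ} (hz : ‖z‖ = 1) :
    (‖α‖ ^ 2 - 1) * ‖(G /ₘ (X - C α)).eval z‖ ^ 2
      ≤ (n : ℝ) * sq G z - 2 * ((DD G).eval z * conj (G.eval z)).re := by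
  set H := G /ₘ (X - C α) with hH
  have hG2 : G = (X - C α) * H := (mul_divByMonic_eq_iff_isRoot.2 hα).symm
  have h1 := step_id n α H hz
  rw [← hG2] at h1
  rw [h1]
  have h2 := nonneg_aux z hz (n - 1) H (natDegree_div hG α) (by
        intro β hβ
        apply hr
        rw [hG2]
        simp [hβ])
  rw [Nat.cast_sub hn, Nat.cast_one] at h2
  have h5 : (0 : ℝ) ≤ ‖z - α‖ ^ 2 := sq_nonneg _
  have := mul_nonneg h5 h2
  have h6 : sq H z = ‖H.eval z‖ ^ 2 := rfl
  rw [h6] at this ⊢
  linarith

/-! ### the key inequality -/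

theorem t_KEY : T_KEY := by
  intro n s c G lam m r ζ hn hs hs1 h α hα hα1 z hz
  have hG := h.deg
  -- the identity of coefficients
  have hcoef : ∀ k, k ≤ n →
      (s : ℂ) * (2 * (∑ i ∈ Finset.range (n + 1), (i : ℂ) * G.coeff i * conj (G.coeff (i + k)))
          + k * ac n G k)
        + ∑ i, ((2 * r i : ℝ) : ℂ) * ac n (G /ₘ (X - C (ζ i))) k
      = (n : ℂ) * ac n G k + ((-(1 - s) : ℝ) : ℂ) * ((k : ℂ) * ac n G k) := by
    intro k hk
    have h1 := rec_t h k hk
    have h2 := rec_d hG h.log k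
    have h3 : ∀ j ∈ Finset.range (n + 1), (j : ℂ) * c j * ac n G (k + j)
        = s * ((j : ℂ) * lam j * ac n G (k + j))
          - ∑ i, ((2 * r i : ℝ) : ℂ) * ((j : ℂ) * conj (ζ i) ^ j * ac n G (k + j)) := by
      intro j hj
      rw [Finset.mem_range] at hj
      cases j with
      | zero => simp
      | succ j =>
        rw [h.ck (j + 1) (by omega) (by omega)]
        have : ∑ i, ((2 * r i : ℝ) : ℂ) * (((j + 1 : ℕ) : ℂ) * conj (ζ i) ^ (j + 1) * ac n G (k + (j + 1)))
            = ((j + 1 : ℕ) : ℂ) * (2 * ∑ i, (r i : ℂ) * conj (ζ i) ^ (j + 1)) * ac n G (k + (j + 1)) := by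
          rw [Finset.mul_sum, Finset.mul_sum, Finset.sum_mul]
          apply Finset.sum_congr rfl
          intro i _
          push_cast
          ring
        rw [this]
        ring
    rw [Finset.sum_congr rfl h3, Finset.sum_sub_distrib, ← Finset.mul_sum, Finset.sum_comm] at h1
    have h4 : ∀ i ∈ (Finset.univ : Finset (Fin m)), ∑ j ∈ Finset.range (n + 1),
        ((2 * r i : ℝ) : ℂ) * ((j : ℂ) * conj (ζ i) ^ j * ac n G (k + j))
        = - (((2 * r i : ℝ) : ℂ) * ac n (G /ₘ (X - C (ζ i))) k) := by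
      intro i _
      rw [← Finset.mul_sum, rec_root hn hG (h.circ i) (h.root i) k]
      ring
    rw [Finset.sum_congr rfl h4, Finset.sum_neg_distrib] at h1
    rw [h2]
    push_cast at h1 ⊢
    linear_combination -h1
  -- pass to the trigonometric polynomials
  have hTP : s * (2 * ((DD G).eval z * conj (G.eval z)).re)
      + ∑ i, 2 * r i * ‖(G /ₘ (X - C (ζ i))).eval z‖ ^ 2
      = n * sq G z - (1 - s) * TP n (fun k => (k : ℂ) * ac n G k) z := by
    have h1 := TP_congr (n := n) hcoef z
    rw [TP_add, TP_add, TP_smul, TP_smul, TP_sum, ← two_re_DD hG hz] at h1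
    have h2 : TP n (fun k => (n : ℂ) * ac n G k) z = n * sq G z := by
      have := TP_smul n (n : ℝ) (ac n G) z
      push_cast at this
      rw [this, sq_eq hG hz]
    rw [h2] at h1
    have h3 : ∀ i ∈ (Finset.univ : Finset (Fin m)),
        TP n (fun k => ((2 * r i : ℝ) : ℂ) * ac n (G /ₘ (X - C (ζ i))) k) z
          = 2 * r i * ‖(G /ₘ (X - C (ζ i))).eval z‖ ^ 2 := by
      intro i _
      rw [TP_smul, ← sq_eq ((natDegree_div hG (ζ i)).trans (Nat.sub_le n 1)) hz]
      rfl
    rw [Finset.sum_congr rfl h3] at h1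
    linarith
  have h5 := TP_nat_le hG hz
  have h6 := root_bound hn hG (fun β hβ => by
    by_contra hc
    push Not at hc
    exact h.zf β hc hβ) hα hz
  nlinarith [mul_le_mul_of_nonneg_left h5 (by linarith : 0 ≤ 1 - s),
    mul_le_mul_of_nonneg_left h6 hs.le]

end Pool.Agent.H82.NP
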