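import Mathlib
import Pool.Agent.H82.NP.Targets

/-!
Module FIN.
-/

set_option autoImplicit false

open Metric Set Filter Topology Polynomial

namespace Pool.Agent.H82.NP

open Pool.Agent.H82.Hp (co Np Fext exists_log value_eq mem_Np_hF co_Fext co_congr sparse)

theorem t_FIN (hTELE : T_TELE) (hNPCC : T_NPCC) (hEA1 : T_EA1) : T_FIN := by
  intro n hn
  obtain ⟨s₀, hs0, hs1, hmain⟩ := hTELE n hn
  refine ⟨1 / s₀, by rw [lt_div_iff₀ hs0]; linarith, ?_⟩
  intro p q hp hpp hpq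
  have hp0 : 0 < p := by linarith
  have hs : s₀ < 1 / p := by
    rw [lt_div_iff₀ hs0] at hpp
    rw [lt_div_iff₀ hp0]
    linarith
  have hs' : 1 / p < 1 := by
    rw [div_lt_one hp0]
    exact hp
  have hval : (2 / Real.exp 1) ^ (1 / q) = Real.exp ((1 - 1 / p) * (Real.log 2 - 1)) :=
    value_eq hpq
  have hval2 : (2 / Real.exp 1) ^ (1 / q) = Real.exp (-(1 - 1 / p) * eps0) := by
    rw [hval, eps0]
    congr 1
    ring
  -- the estimate for an element of the class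
  have hf : ∀ f ∈ Np p, ‖co f n‖ ≤ (2 / Real.exp 1) ^ (1 / q) ∧
      (‖co f n‖ = (2 / Real.exp 1) ^ (1 / q) → ∀ k, 1 ≤ k → k < n → co f k = 0) := by
    intro f hf
    obtain ⟨h, hh, hfh⟩ := exists_log hf.1 hf.2.1
    have h1 := hNPCC p hp.le f hf h hh hfh n
    have h2 := hEA1 f h hh hfh
    obtain ⟨h3, h4⟩ := hmain (1 / p) hs hs' _ h1
    rw [hval2, h2 n]
    refine ⟨h3, fun h5 k hk1 hk2 => ?_⟩
    rw [h2 k]
    exact h4 h5 k hk1 hk2
  refine ⟨⟨?_, ?_⟩, ?_⟩
  · refine ⟨Fext p n 1 1, mem_Np_hF hp hn norm_one norm_one, ?_⟩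
    simp only
    rw [(co_Fext hp hn norm_one norm_one).2, hval]
  · rintro _ ⟨f, hfN, rfl⟩
    exact (hf f hfN).1
  · intro f hfN
    constructor
    · intro heq
      have h1 := (hf f hfN).2 heq
      have h2 := sparse hp hn hfN (fun k hk1 hk2 => h1 k hk1 (by omega))
      exact h2.2.1 (by rw [heq, hval])
    · rintro ⟨c, γ, hc, hγ, heq⟩
      rw [co_congr heq, (co_Fext hp hn hc hγ).2, hval]

end Pool.Agent.H82.NP
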