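import Mathlib
import Pool.Agent.H82.NP.Targets

/-!
Module LOC.
-/

set_option autoImplicit false

open Metric Set Filter Topology Polynomial

namespace Pool.Agent.H82.NP

open ComplexConjugate

/-- divided difference of a polynomial of degree at most `n` -/
noncomputable def dq (n : ℕ) (g : ℕ → ℂ) (x y : ℂ) : ℂ :=
  ∑ j ∈ Finset.range (n + 1), g j * ∑ i ∈ Finset.range j, x ^ i * y ^ (j - 1 - i)

lemma dq_mul (n : ℕ) {G : ℂ[X]} (hG : G.natDegree ≤ n) (x y : ℂ) :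
    (x - y) * dq n G.coeff x y = G.eval x - G.eval y := by
  rw [eval_eq_sum_range' (by omega : G.natDegree < n + 1) x,
    eval_eq_sum_range' (by omega : G.natDegree < n + 1) y, ← Finset.sum_sub_distrib, dq,
    Finset.mul_sum]
  apply Finset.sum_congr rfl
  intro j _
  have := (Commute.all x y).mul_geom_sum₂ j
  rw [← mul_sub, ← this]
  ring

lemma dq_cont (n : ℕ) : Continuous (fun q : (ℕ → ℂ) × ℂ × ℂ => dq n q.1 q.2.1 q.2.2) := by
  unfold dq
  fun_prop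

lemma dq_diag (n : ℕ) {G : ℂ[X]} (hG : G.natDegree ≤ n) (x : ℂ) :
    dq n G.coeff x x = (derivative G).eval x := by
  have h1 : HasDerivAt (fun y => G.eval y) ((derivative G).eval x) x := G.hasDerivAt x
  have h2 : Tendsto (fun y => dq n G.coeff y x) (𝓝[≠] x) (𝓝 (dq n G.coeff x x)) := by
    have : Continuous (fun y => dq n G.coeff y x) := by
      unfold dq
      fun_prop
    exact (this.tendsto x).mono_left nhdsWithin_le_nhds
  have h3 := hasDerivAt_iff_tendsto_slope.1 h1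
  have h4 : Tendsto (fun y => dq n G.coeff y x) (𝓝[≠] x) (𝓝 ((derivative G).eval x)) := by
    refine h3.congr' ?_
    filter_upwards [self_mem_nhdsWithin] with y hy
    have hy' : y - x ≠ 0 := sub_ne_zero.2 hy
    rw [slope_def_field, ← dq_mul n hG y x]
    field_simp
  exact tendsto_nhds_unique h2 h4

lemma eval_cont (n : ℕ) : Continuous (fun q : (ℕ → ℂ) × ℂ =>
    ∑ j ∈ Finset.range (n + 1), q.1 j * q.2 ^ j) := by fun_prop

lemma root_le {n : ℕ} (hn : 1 ≤ n) {G : ℂ[X]} (hG : G.natDegree ≤ n) {α : ℂ} (hα : G.eval α = 0)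
    (h1 : 1 < ‖α‖) : ‖G.coeff n‖ * ‖α‖ ≤ ∑ j ∈ Finset.range n, ‖G.coeff j‖ := by
  rw [eval_eq_sum_range' (by omega : G.natDegree < n + 1), Finset.sum_range_succ] at hα
  have h2 : ‖G.coeff n * α ^ n‖ = ‖∑ j ∈ Finset.range n, G.coeff j * α ^ j‖ := by
    rw [← norm_neg (∑ j ∈ Finset.range n, G.coeff j * α ^ j)]
    congr 1
    linear_combination hα
  have h3 : ‖∑ j ∈ Finset.range n, G.coeff j * α ^ j‖
      ≤ (∑ j ∈ Finset.range n, ‖G.coeff j‖) * ‖α‖ ^ (n - 1) := by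
    rw [Finset.sum_mul]
    refine (norm_sum_le _ _).trans (Finset.sum_le_sum fun j hj => ?_)
    rw [Finset.mem_range] at hj
    rw [norm_mul, norm_pow]
    exact mul_le_mul_of_nonneg_left (pow_le_pow_right₀ h1.le (by omega)) (norm_nonneg _)
  rw [norm_mul, norm_pow] at h2
  have h4 : ‖α‖ ^ n = ‖α‖ * ‖α‖ ^ (n - 1) := by
    rw [← pow_succ']
    congr 1
    omega
  rw [h4, ← mul_assoc] at h2
  have h5 : 0 < ‖α‖ ^ (n - 1) := pow_pos (by linarith) _
  exact le_of_mul_le_mul_right (h2.le.trans h3) h5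

theorem t_LOC (hKEY : T_KEY) : T_LOC := by
  intro n s c G H lam m r ζ K hn hs hs1 hK hr hcoef hHn hHs
  have hH0 : H.coeff n ≠ 0 := by
    have h0 : H ≠ 0 := by
      rintro rfl
      simp at hHn
      omega
    rw [← hHn]
    exact fun h => h0 (leadingCoeff_eq_zero.1 h)
  have hdeg : ∀ᶠ k in atTop, ‖H.coeff n‖ / 2 < ‖(G k).coeff n‖ := by
    have : Tendsto (fun k => ‖(G k).coeff n‖) atTop (𝓝 ‖H.coeff n‖) := (hcoef n).norm
    exact this.eventually_const_lt (by have := norm_pos_iff.2 hH0; linarith)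
  have hdeg2 : ∀ᶠ k in atTop, (G k).natDegree = n := by
    filter_upwards [hdeg] with k hk
    apply le_antisymm (hK k).deg
    apply le_natDegree_of_ne_zero
    intro h0
    rw [h0, norm_zero] at hk
    have := norm_nonneg (H.coeff n)
    linarith
  rw [Filter.eventually_and]
  refine ⟨hdeg2, ?_⟩
  by_contra hcon
  rw [Filter.not_eventually] at hcon
  have hcon2 : ∃ᶠ k in atTop, (∃ α, (G k).eval α = 0 ∧ 1 < ‖α‖) ∧
      ‖H.coeff n‖ / 2 < ‖(G k).coeff n‖ := by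
    refine (hcon.and_eventually hdeg).mono ?_
    rintro k ⟨h1, h2⟩
    refine ⟨?_, h2⟩
    push Not at h1
    obtain ⟨z, hz1, hz2⟩ := h1
    refine ⟨z, hz1, ?_⟩
    rcases lt_or_gt_of_ne hz2 with h | h
    · exact absurd hz1 ((hK k).zf z h)
    · exact h
  obtain ⟨φ, hφ, hP⟩ := extraction_of_frequently_atTop hcon2
  choose hα hbig using hP
  choose α hα0 hα1 using hα
  -- boundedness of the roots
  have hsum : Tendsto (fun k => ∑ j ∈ Finset.range n, ‖(G (φ k)).coeff j‖) atTop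
      (𝓝 (∑ j ∈ Finset.range n, ‖H.coeff j‖)) := by
    apply tendsto_finsetSum
    intro j _
    exact ((hcoef j).norm).comp hφ.tendsto_atTop
  obtain ⟨B, hB⟩ := hsum.bddAbove_range
  have hC2 : ∀ k, ∑ j ∈ Finset.range n, ‖(G (φ k)).coeff j‖ ≤ B := fun k => hB ⟨k, rfl⟩
  have hHpos : 0 < ‖H.coeff n‖ := norm_pos_iff.2 hH0
  have hbd : ∀ k, ‖α k‖ ≤ B / (‖H.coeff n‖ / 2) := by
    intro k
    rw [le_div_iff₀ (by positivity)]
    have h1 := root_le hn (hK (φ k)).deg (hα0 k) (hα1 k)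
    have h2 := hC2 k
    have h3 := hbig k
    have h4 : 0 < ‖α k‖ := by linarith [hα1 k]
    nlinarith
  obtain ⟨a, _, ψ, hψ, hlim⟩ := (isCompact_closedBall (0 : ℂ) (B / (‖H.coeff n‖ / 2))).tendsto_subseq
    (x := α) (fun k => by rw [mem_closedBall, dist_zero_right]; exact hbd k)
  set θ := φ ∘ ψ with hθ
  have hθt : Tendsto θ atTop atTop := hφ.tendsto_atTop.comp hψ.tendsto_atTop
  have hg : Tendsto (fun k => (G (θ k)).coeff) atTop (𝓝 H.coeff) := by
    rw [tendsto_pi_nhds]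
    intro j
    exact (hcoef j).comp hθt
  have hHa : H.eval a = 0 := by
    have h1 := ((eval_cont n).tendsto (H.coeff, a)).comp (hg.prodMk_nhds hlim)
    have h2 : ((fun q : (ℕ → ℂ) × ℂ => ∑ j ∈ Finset.range (n + 1), q.1 j * q.2 ^ j) ∘
        fun k => ((G (θ k)).coeff, (α ∘ ψ) k)) = fun _ => 0 := by
      funext k
      simp only [Function.comp_apply]
      rw [← eval_eq_sum_range' (by have := (hK (θ k)).deg; omega)]
      exact hα0 (ψ k)
    rw [h2] at h1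
    have h3 := tendsto_nhds_unique h1 tendsto_const_nhds
    rw [eval_eq_sum_range' (by omega : H.natDegree < n + 1)]
    exact h3
  obtain ⟨ha1, hHd⟩ := hHs a hHa
  -- neighbourhoods
  have hne : dq n H.coeff a a ≠ 0 := by rw [dq_diag n hHn.le]; exact hHd
  have hopen : {q : (ℕ → ℂ) × ℂ × ℂ | dq n q.1 q.2.1 q.2.2 ≠ 0} ∈ 𝓝 (H.coeff, a, a) :=
    ((dq_cont n).isOpen_preimage {0}ᶜ isOpen_compl_singleton).mem_nhds hne
  rw [nhds_prod_eq, Filter.mem_prod_iff] at hopen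
  obtain ⟨U, hU, W, hW, hUW⟩ := hopen
  rw [nhds_prod_eq, Filter.mem_prod_iff] at hW
  obtain ⟨V1, hV1, V2, hV2, hV⟩ := hW
  obtain ⟨δ, hδ, hball⟩ := Metric.mem_nhds_iff.1 (Filter.inter_mem hV1 hV2)
  have hnz : ∀ g ∈ U, ∀ x ∈ ball a δ, ∀ y ∈ ball a δ, dq n g x y ≠ 0 := by
    intro g hg x hx y hy
    have h1 : (x, y) ∈ W := hV (Set.mk_mem_prod (hball hx).1 (hball hy).2)
    exact hUW (Set.mk_mem_prod hg h1)
  have hz : Tendsto (fun k => α (ψ k) / (‖α (ψ k)‖ : ℂ)) atTop (𝓝 a) := by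
    have h1 : Tendsto (fun k => α (ψ k) / (‖α (ψ k)‖ : ℂ)) atTop (𝓝 (a / (‖a‖ : ℂ))) := by
      apply Tendsto.div hlim
      · exact (Complex.continuous_ofReal.tendsto _).comp hlim.norm
      · rw [ha1]; simp
    rw [ha1] at h1
    simpa using h1
  have hn1 : Tendsto (fun k => ‖α (ψ k)‖) atTop (𝓝 1) := by
    have := hlim.norm
    rwa [ha1] at this
  have hnr : Tendsto (fun k => 2 * K * (‖α (ψ k)‖ - 1) / (δ / 2) ^ 2) atTop (𝓝 0) := by
    have h1 : Tendsto (fun k => 2 * K * (‖α (ψ k)‖ - 1) / (δ / 2) ^ 2) atTop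
        (𝓝 (2 * K * (1 - 1) / (δ / 2) ^ 2)) :=
      (tendsto_const_nhds.mul (hn1.sub tendsto_const_nhds)).div_const _
    simpa using h1
  have e1 := hg.eventually_mem hU
  have e2 := hlim.eventually_mem (ball_mem_nhds a hδ)
  have e3 := hz.eventually_mem (ball_mem_nhds a (half_pos hδ))
  have e4 := hnr.eventually_lt_const (show (0 : ℝ) < 1 by norm_num)
  obtain ⟨k, h1, h2, h3, h4⟩ := (e1.and (e2.and (e3.and e4))).exists
  -- the contradiction
  set β := α (ψ k) with hβ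
  set z := β / (‖β‖ : ℂ) with hzd
  have hβ1 : 1 < ‖β‖ := hα1 (ψ k)
  have hβc : (‖β‖ : ℂ) ≠ 0 := by
    exact_mod_cast (by linarith : ‖β‖ ≠ 0)
  have hz1 : ‖z‖ = 1 := by
    rw [hzd, norm_div, Complex.norm_real, norm_norm]
    exact div_self (by linarith)
  have hKK := hK (θ k)
  have hroot : (G (θ k)).eval β = 0 := hα0 (ψ k)
  set P := G (θ k) with hP
  have hkey := hKEY n (s (θ k)) (c (θ k)) P (lam (θ k)) (m (θ k)) (r (θ k)) (ζ (θ k)) hn
    (by have := hs (θ k); linarith) (hs1 (θ k)) hKK β hroot hβ1 z hz1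
  have hzβ : ‖z - β‖ = ‖β‖ - 1 := by
    have : z - β = -(((‖β‖ - 1 : ℝ) : ℂ) * z) := by
      rw [hzd]
      push_cast
      field_simp
      ring
    rw [this, norm_neg, norm_mul, hz1, mul_one, Complex.norm_real, Real.norm_eq_abs,
      abs_of_pos (by linarith)]
  set E := (P /ₘ (X - C β)).eval z with hE
  have hPz : P.eval z = (z - β) * E := by
    have : P = (X - C β) * (P /ₘ (X - C β)) := (mul_divByMonic_eq_iff_isRoot.2 hroot).symm
    conv_lhs => rw [this]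
    simp [hE]
  have hzb : z - β ≠ 0 := by
    intro h0
    rw [h0, norm_zero] at hzβ
    linarith
  have hzball : z ∈ ball a δ := ball_subset_ball (by linarith) h3
  have hEne : E ≠ 0 := by
    have h5 := dq_mul n hKK.deg z β
    rw [hroot, sub_zero, hPz] at h5
    have h6 := mul_left_cancel₀ hzb h5
    rw [← h6]
    exact hnz _ h1 z hzball β h2
  have hatom : ∀ i, δ / 2 ≤ ‖z - ζ (θ k) i‖ := by
    intro i
    by_contra hc
    push Not at hc
    have h5 : ζ (θ k) i ∈ ball a δ := by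
      rw [mem_ball, dist_eq_norm]
      rw [mem_ball, dist_eq_norm] at h3
      calc ‖ζ (θ k) i - a‖ = ‖(z - a) - (z - ζ (θ k) i)‖ := by congr 1; ring
        _ ≤ ‖z - a‖ + ‖z - ζ (θ k) i‖ := norm_sub_le _ _
        _ < δ := by linarith
    have h6 := dq_mul n hKK.deg β (ζ (θ k) i)
    rw [hroot, hKK.root i, sub_zero, mul_eq_zero] at h6
    rcases h6 with h6 | h6
    · have h7 : β = ζ (θ k) i := by linear_combination h6
      rw [h7, hKK.circ i] at hβ1
      linarith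
    · exact hnz _ h1 β h2 _ h5 h6
  have hsumle : ∑ i, 2 * r (θ k) i * ‖(P /ₘ (X - C (ζ (θ k) i))).eval z‖ ^ 2
      ≤ 2 * K * ((‖β‖ - 1) ^ 2 * ‖E‖ ^ 2 / (δ / 2) ^ 2) := by
    have h5 : ∀ i, ‖(P /ₘ (X - C (ζ (θ k) i))).eval z‖ ^ 2
        ≤ (‖β‖ - 1) ^ 2 * ‖E‖ ^ 2 / (δ / 2) ^ 2 := by
      intro i
      have h6 : P = (X - C (ζ (θ k) i)) * (P /ₘ (X - C (ζ (θ k) i))) :=
        (mul_divByMonic_eq_iff_isRoot.2 (hKK.root i)).symm
      have h7 : P.eval z = (z - ζ (θ k) i) * (P /ₘ (X - C (ζ (θ k) i))).eval z := by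
        conv_lhs => rw [h6]
        simp
      rw [le_div_iff₀ (by positivity)]
      have h8 : (‖β‖ - 1) * ‖E‖ = ‖z - ζ (θ k) i‖ * ‖(P /ₘ (X - C (ζ (θ k) i))).eval z‖ := by
        rw [← hzβ, ← norm_mul, ← norm_mul, ← hPz, ← h7]
      calc ‖(P /ₘ (X - C (ζ (θ k) i))).eval z‖ ^ 2 * (δ / 2) ^ 2
          ≤ ‖(P /ₘ (X - C (ζ (θ k) i))).eval z‖ ^ 2 * ‖z - ζ (θ k) i‖ ^ 2 :=
            mul_le_mul_of_nonneg_left (pow_le_pow_left₀ (by positivity) (hatom i) 2) (sq_nonneg _)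
        _ = ((‖β‖ - 1) * ‖E‖) ^ 2 := by rw [h8]; ring
        _ = _ := by ring
    calc ∑ i, 2 * r (θ k) i * ‖(P /ₘ (X - C (ζ (θ k) i))).eval z‖ ^ 2
        ≤ ∑ i, 2 * r (θ k) i * ((‖β‖ - 1) ^ 2 * ‖E‖ ^ 2 / (δ / 2) ^ 2) := by
          apply Finset.sum_le_sum
          intro i _
          exact mul_le_mul_of_nonneg_left (h5 i) (by have := hKK.rpos i; linarith)
      _ = 2 * (∑ i, r (θ k) i) * ((‖β‖ - 1) ^ 2 * ‖E‖ ^ 2 / (δ / 2) ^ 2) := by
          rw [← Finset.sum_mul, ← Finset.mul_sum]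
      _ ≤ _ := by
          apply mul_le_mul_of_nonneg_right _ (by positivity)
          have := hr (θ k)
          linarith
  have hEpos : 0 < ‖E‖ ^ 2 := by
    have := norm_pos_iff.2 hEne
    positivity
  have hfin := hkey.trans hsumle
  have h10 : s (θ k) * (‖β‖ ^ 2 - 1) ≤ 2 * K * (‖β‖ - 1) ^ 2 / (δ / 2) ^ 2 := by
    have : s (θ k) * (‖β‖ ^ 2 - 1) * ‖E‖ ^ 2 ≤ 2 * K * (‖β‖ - 1) ^ 2 / (δ / 2) ^ 2 * ‖E‖ ^ 2 := by
      calc _ ≤ _ := hfin
        _ = _ := by ring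
    exact le_of_mul_le_mul_right this hEpos
  have h11 : s (θ k) * (‖β‖ + 1) ≤ 2 * K * (‖β‖ - 1) / (δ / 2) ^ 2 := by
    have h12 : 0 < ‖β‖ - 1 := by linarith
    have : s (θ k) * (‖β‖ + 1) * (‖β‖ - 1) ≤ 2 * K * (‖β‖ - 1) / (δ / 2) ^ 2 * (‖β‖ - 1) := by
      calc _ = s (θ k) * (‖β‖ ^ 2 - 1) := by ring
        _ ≤ _ := h10
        _ = _ := by ring
    exact le_of_mul_le_mul_right this h12
  have h13 := hs (θ k)
  nlinarith

end Pool.Agent.H82.NP
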