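import Mathlib
import Pool.Agent.H82.NP.FIN
import Pool.Agent.H82.NP.LOC
import Pool.Agent.H82.NP.KEY
import Pool.Agent.H33.NP.CC
import Pool.Agent.H33.NP.EA1
import Pool.Agent.H33.NP.EN
import Pool.Agent.H33.NP.EN1
import Pool.Agent.H33.NP.ENV
import Pool.Agent.H33.NP.Entc
import Pool.Agent.H33.NP.Gibbs
import Pool.Agent.H34.NP.ATOM
import Pool.Agent.H34.NP.FR
import Pool.Agent.H36.NP.KKTm
import Pool.Agent.H36.NP.LOG
import Pool.Agent.H36.NP.QUAD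
import Pool.Agent.H39.NP.MAX
import Pool.Agent.H39.NP.TELE
import Pool.Agent.H42.NP.NEAR
import Pool.Agent.H42.NP.P1
import Pool.Agent.H62.NP.K23
import Pool.Agent.H62.NP.NPCC
import Pool.Agent.H62.NP.OPT
import Pool.Agent.H62.NP.SELF
import Pool.Agent.H62.NP.UNIQ
import Pool.Agent.H92.NP.Pars
import Pool.Agent.H92.NP.Ser
import Pool.Agent.H92.NP.Ub

/-!
# Assembly (`MP_ff17e6_an`)
-/

set_option autoImplicit false

open Metric Set Filter Topology Polynomial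

namespace Pool.Agent.H82.NP

open Pool.Agent

theorem eaOne : T_EA1 := H33.NP.t_EA1
theorem optT : T_OPT := H62.NP.t_OPT H33.NP.t_EAD
theorem kOne : T_K1 := H62.NP.t_K1 H33.NP.t_EAD
theorem logT : T_LOG := H36.NP.t_LOG H33.NP.t_EA1
theorem kTwo : T_K2 := H62.NP.t_K2 optT kOne H34.NP.t_FR logT H33.NP.t_GIBBS
theorem kThree : T_K3 := H62.NP.t_K3 optT kOne H34.NP.t_FR logT H33.NP.t_GIBBS H33.NP.t_ADM
theorem kktT : T_KKT :=
  H36.NP.t_KKT kOne kTwo kThree H34.NP.t_FR logT H34.NP.t_ATOM t_AC H62.NP.t_UNIQ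
theorem npccT : T_NPCC := H62.NP.t_NPCC H33.NP.t_GIBBS
theorem candT : T_CAND := H33.NP.t_CAND npccT
theorem maxexT : T_MAXEX := H39.NP.t_MAXEX H33.NP.t_CCCL H33.NP.t_CCBD candT H33.NP.t_EA3
  H33.NP.t_EA4 H33.NP.t_EA5 H33.NP.t_EA6
theorem maxbdT : T_MAXBD := H39.NP.t_MAXBD H33.NP.t_CCBD candT H33.NP.t_EA4
theorem poneT : T_P1 :=
  H42.NP.t_P1 H33.NP.t_EA1 H33.NP.t_EA2 H33.NP.t_EA6 H92.NP.t_BESSEL H92.NP.t_PARS
theorem quadT : T_QUAD := H36.NP.t_QUAD H92.NP.t_PARS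
theorem enOneT : T_EN1 := H33.NP.t_EN1 H62.NP.t_AB (H92.NP.t_UB H62.NP.t_AB) H92.NP.t_SER
theorem enT : T_EN := H33.NP.t_EN enOneT
theorem locT : T_LOC := t_LOC t_KEY
theorem nearT : T_NEAR := H42.NP.t_NEAR poneT enT locT H33.NP.t_ENTC H33.NP.t_CCCL candT maxexT
  maxbdT kktT H33.NP.t_EA3
theorem teleT : T_TELE := H39.NP.t_TELE nearT maxexT kktT H33.NP.t_ENV quadT poneT H33.NP.t_EA5
  H33.NP.t_EA6
theorem finT : T_FIN := t_FIN teleT npccT eaOne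

end Pool.Agent.H82.NP
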